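import Pool.Agent.Q116.IS.Num

/-!
# Edges inside a set of vertices of the cube, and fibre counts
-/

set_option autoImplicit false

namespace Q116.IS

open Finset

variable {ι : Type} [Fintype ι] [DecidableEq ι]

/-- change the coordinate `i` -/
def fl (i : ι) (x : ι → Bool) : ι → Bool := Function.update x i (!x i)

@[simp] theorem fl_same (i : ι) (x : ι → Bool) : fl i x i = !x i := by simp [fl]

theorem fl_ne {i j : ι} (h : j ≠ i) (x : ι → Bool) : fl i x j = x j := by
  simp [fl, Function.update_of_ne h]

@[simp] theorem fl_fl (i : ι) (x : ι → Bool) : fl i (fl i x) = x := by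
  funext j
  by_cases h : j = i
  · subst h; simp
  · rw [fl_ne h, fl_ne h]

theorem fl_comm (i j : ι) (x : ι → Bool) : fl i (fl j x) = fl j (fl i x) := by
  funext l
  by_cases hi : l = i
  · subst hi
    by_cases hj : l = j
    · subst hj; rfl
    · rw [fl_same, fl_ne hj, fl_ne hj, fl_same]
  · rw [fl_ne hi]
    by_cases hj : l = j
    · subst hj
      rw [fl_same, fl_same, fl_ne hi]
    · rw [fl_ne hj, fl_ne hj, fl_ne hi]

theorem fl_inj (i : ι) : Function.Injective (fl i) := fun x y h => by
  have := congrArg (fl i) h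
  simpa using this

/-- number of pairs `(x, i)` with `x` and `fl i x` in `A`: twice the number of edges inside `A` -/
def D (A : Finset (ι → Bool)) : ℕ := ∑ i, (A.filter (fun x => fl i x ∈ A)).card

/-- vertices which are zero outside of `T` -/
def QT (T : Finset ι) : Finset (ι → Bool) := univ.filter (fun y => ∀ i, i ∉ T → y i = false)

theorem mem_QT {T : Finset ι} {y : ι → Bool} : y ∈ QT T ↔ ∀ i, i ∉ T → y i = false := by
  simp [QT]

theorem QT_univ : QT (univ : Finset ι) = univ := by
  ext y; simp [mem_QT]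

theorem QT_empty : QT (∅ : Finset ι) = {fun _ => false} := by
  ext y
  rw [mem_QT, mem_singleton]
  exact ⟨fun h => funext fun i => h i (notMem_empty i), fun h i _ => by rw [h]⟩

theorem QT_insert {T : Finset ι} {i : ι} (hi : i ∉ T) :
    QT (insert i T) = QT T ∪ (QT T).image (fl i) := by
  ext y
  rw [mem_union, mem_image, mem_QT, mem_QT]
  constructor
  · intro h
    cases hy : y i with
    | false =>
      left
      intro j hj
      by_cases hji : j = i
      · rw [hji, hy]
      · exact h j (by simp [hj, hji])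
    | true =>
      right
      refine ⟨fl i y, mem_QT.2 fun j hj => ?_, fl_fl i y⟩
      by_cases hji : j = i
      · rw [hji, fl_same, hy]; rfl
      · rw [fl_ne hji]
        exact h j (by simp [hj, hji])
  · rintro (h | ⟨z, hz, rfl⟩) j hj
    · exact h j (fun hj' => hj (mem_insert_of_mem hj'))
    · have hji : j ≠ i := fun h => hj (by rw [h]; exact mem_insert_self _ _)
      rw [fl_ne hji]
      exact mem_QT.1 hz j (fun hj' => hj (mem_insert_of_mem hj'))

theorem sum_QT_insert {T : Finset ι} {i : ι} (hi : i ∉ T) (h : (ι → Bool) → ℕ) :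
    ∑ y ∈ QT (insert i T), h y = ∑ y ∈ QT T, (h y + h (fl i y)) := by
  rw [QT_insert hi, sum_union, sum_image (fun x _ y _ h => fl_inj i h), sum_add_distrib]
  rw [disjoint_left]
  intro y hy hy'
  rw [mem_image] at hy'
  obtain ⟨z, hz, rfl⟩ := hy'
  have h1 := mem_QT.1 hy i hi
  have h2 := mem_QT.1 hz i hi
  rw [fl_same, h2] at h1
  exact absurd h1 (by decide)

/-- the functional: twice the number of edges of the union of nested initial segments of sizes
`g y` over the vertices `y` of the cube `QT T` -/
def Phi (T : Finset ι) (g : (ι → Bool) → ℕ) : ℕ :=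
  2 * ∑ y ∈ QT T, s (g y) + ∑ i ∈ T, ∑ y ∈ QT T, min (g y) (g (fl i y))

theorem Phi_insert_le {T : Finset ι} {i : ι} (hi : i ∉ T) (g : (ι → Bool) → ℕ) :
    Phi (insert i T) g ≤ Phi T (fun y => g y + g (fl i y)) := by
  unfold Phi
  rw [sum_insert hi, sum_QT_insert hi, sum_QT_insert hi]
  have h1 : ∑ y ∈ QT T, (s (g y) + s (g (fl i y)) + min (g y) (g (fl i y))) ≤
      ∑ y ∈ QT T, s (g y + g (fl i y)) := sum_le_sum fun y _ => s_add _ _
  have h2 : ∑ y ∈ QT T, (min (g y) (g (fl i y)) + min (g (fl i y)) (g (fl i (fl i y)))) =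
      2 * ∑ y ∈ QT T, min (g y) (g (fl i y)) := by
    rw [mul_sum]
    refine sum_congr rfl fun y _ => ?_
    rw [fl_fl, min_comm (g (fl i y)) (g y)]
    ring
  have h3 : ∑ j ∈ T, ∑ y ∈ QT (insert i T), min (g y) (g (fl j y)) ≤
      ∑ j ∈ T, ∑ y ∈ QT T, min (g y + g (fl i y)) (g (fl j y) + g (fl i (fl j y))) := by
    refine sum_le_sum fun j _ => ?_
    rw [sum_QT_insert hi]
    refine sum_le_sum fun y _ => ?_
    rw [fl_comm j i y]
    omega
  rw [sum_add_distrib] at h1
  rw [h2]
  beta_reduce
  rw [sum_add_distrib] at h1 ⊢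
  omega

/-- the functional form of the edge isoperimetric inequality -/
theorem Phi_le (T : Finset ι) : ∀ g : (ι → Bool) → ℕ, Phi T g ≤ 2 * s (∑ y ∈ QT T, g y) := by
  induction T using Finset.induction_on with
  | empty =>
    intro g
    unfold Phi
    rw [QT_empty]
    simp
  | insert i T hi ih =>
    intro g
    refine (Phi_insert_le hi g).trans ((ih _).trans ?_)
    rw [sum_QT_insert hi]

/-- the fibre counts -/
def cnt (A : Finset (ι → Bool)) (T : Finset ι) (y : ι → Bool) : ℕ :=
  (A.filter (fun x => ∀ j ∈ T, x j = y j)).card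

theorem cnt_insert (A : Finset (ι → Bool)) {T : Finset ι} {i : ι} (hi : i ∉ T) (y : ι → Bool) :
    cnt A T y = cnt A (insert i T) y + cnt A (insert i T) (fl i y) := by
  unfold cnt
  rw [← card_union_of_disjoint]
  · congr 1
    ext x
    simp only [mem_filter, mem_union, forall_mem_insert, fl_same]
    constructor
    · rintro ⟨hx, h⟩
      rcases Bool.eq_or_eq_not (x i) (y i) with h1 | h1
      · exact Or.inl ⟨hx, h1, h⟩
      · exact Or.inr ⟨hx, h1, fun j hj => by
          rw [fl_ne (fun h' : j = i => hi (by rw [← h']; exact hj)), h j hj]⟩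
    · rintro (⟨hx, _, h⟩ | ⟨hx, _, h⟩)
      · exact ⟨hx, h⟩
      · refine ⟨hx, fun j hj => ?_⟩
        have := h j hj
        rwa [fl_ne (fun h' : j = i => hi (by rw [← h']; exact hj))] at this
  · rw [disjoint_left]
    intro x hx hx'
    simp only [mem_filter, forall_mem_insert, fl_same] at hx hx'
    have h1 := hx.2.1
    have h2 := hx'.2.1
    rw [h1] at h2
    cases h3 : y i <;> simp [h3] at h2

theorem cnt_univ (A : Finset (ι → Bool)) (y : ι → Bool) :
    cnt A univ y = if y ∈ A then 1 else 0 := by
  unfold cnt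
  have h : A.filter (fun x => ∀ j ∈ univ, x j = y j) = A.filter (fun x => x = y) := by
    refine filter_congr fun x _ => ?_
    simp [funext_iff]
  rw [h, filter_eq']
  split_ifs <;> simp

theorem sum_cnt (A : Finset (ι → Bool)) (T : Finset ι) : ∑ y ∈ QT T, cnt A T y = A.card := by
  induction T using Finset.induction_on with
  | empty =>
    rw [QT_empty, sum_singleton]
    unfold cnt
    simp
  | insert i T hi ih =>
    rw [sum_QT_insert hi, ← ih]
    exact sum_congr rfl fun y _ => (cnt_insert A hi y).symm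

theorem D_le_Phi (A : Finset (ι → Bool)) (T : Finset ι) : D A ≤ Phi T (cnt A T) := by
  have key : ∀ U : Finset ι, D A ≤ Phi Uᶜ (cnt A Uᶜ) := by
    intro U
    induction U using Finset.induction_on with
    | empty =>
      rw [compl_empty]
      unfold Phi D
      refine le_trans ?_ (Nat.le_add_left _ _)
      rw [QT_univ]
      refine sum_le_sum fun i _ => ?_
      rw [card_filter, ← sum_filter_add_sum_filter_not univ (fun y => y ∈ A)]
      refine le_trans ?_ (Nat.le_add_right _ _)
      rw [filter_mem_eq_inter, univ_inter]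
      refine sum_le_sum fun y hy => ?_
      rw [cnt_univ, cnt_univ, if_pos hy]
      split_ifs <;> simp
    | insert i U hi ih =>
      have h1 : Uᶜ = insert i (insert i U)ᶜ := by
        ext j
        simp only [mem_compl, mem_insert]
        by_cases h : j = i
        · subst h; simp [hi]
        · simp [h]
      have h2 : i ∉ (insert i U)ᶜ := by simp
      refine ih.trans ?_
      rw [h1]
      refine (Phi_insert_le h2 _).trans (le_of_eq ?_)
      congr 1
      funext y
      rw [← h1, h1]
      exact (cnt_insert A h2 y).symm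
  have := key Tᶜ
  rwa [compl_compl] at this

/-- the edge isoperimetric inequality -/
theorem D_le (A : Finset (ι → Bool)) : D A ≤ 2 * s A.card := by
  refine (D_le_Phi A univ).trans ((Phi_le _ _).trans ?_)
  rw [sum_cnt]

/-- cutting the fibres at the height `2 ^ j` -/
theorem D_le_cut (A : Finset (ι → Bool)) (T : Finset ι) (k j : ℕ) (hk : j + T.card = k)
    (hA : A.card = 2 ^ k) : D A ≤ N k (∑ y ∈ QT T, (cnt A T y - 2 ^ j)) := by
  set c := 2 ^ j with hc
  set f := cnt A T with hf
  have h0 : ∑ y ∈ QT T, f y = 2 ^ k := by rw [hf, sum_cnt, hA]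
  have h1 : Phi T f ≤ Phi T (fun y => min (f y) c) + Phi T (fun y => f y - c) +
      2 * ∑ y ∈ QT T, (f y - c) := by
    unfold Phi
    have e1 : ∑ y ∈ QT T, s (f y) ≤ ∑ y ∈ QT T, s (min (f y) c) + ∑ y ∈ QT T, s (f y - c) +
        ∑ y ∈ QT T, (f y - c) := by
      rw [← sum_add_distrib, ← sum_add_distrib]
      refine sum_le_sum fun y _ => ?_
      rcases le_total (f y) c with h | h
      · rw [min_eq_left h]; omega
      · rw [min_eq_right h]
        obtain ⟨w, hw⟩ : ∃ w, f y = c + w := ⟨f y - c, by omega⟩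
        rw [hw, Nat.add_sub_cancel_left]
        exact s_pow_add_le j w
    have e2 : ∑ i ∈ T, ∑ y ∈ QT T, min (f y) (f (fl i y)) =
        ∑ i ∈ T, ∑ y ∈ QT T, min (min (f y) c) (min (f (fl i y)) c) +
        ∑ i ∈ T, ∑ y ∈ QT T, min (f y - c) (f (fl i y) - c) := by
      rw [← sum_add_distrib]
      refine sum_congr rfl fun i _ => ?_
      rw [← sum_add_distrib]
      refine sum_congr rfl fun y _ => ?_
      omega
    rw [e2]
    beta_reduce
    omega
  have h2 := Phi_le T (fun y => min (f y) c)
  have h3 := Phi_le T (fun y => f y - c)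
  have h4 : ∑ y ∈ QT T, min (f y) c = 2 ^ k - ∑ y ∈ QT T, (f y - c) := by
    rw [← h0]
    have : ∑ y ∈ QT T, f y = ∑ y ∈ QT T, min (f y) c + ∑ y ∈ QT T, (f y - c) := by
      rw [← sum_add_distrib]
      exact sum_congr rfl fun y _ => by omega
    omega
  rw [h4] at h2
  have h5 := D_le_Phi A T
  rw [← hf] at h5
  unfold N
  omega

end Q116.IS
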