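import Pool.Agent.Q116.IS.Split

/-!
# Sets with excess less than one half

If `|A| = 2 ^ k` and `A` spans more than `(k - 1/2) 2 ^ (k - 1)` edges, then some subcube of
dimension `k` contains more than seven eighths of `A`.
-/

set_option autoImplicit false

namespace Q116.IS

open Finset

variable {ι : Type} [Fintype ι] [DecidableEq ι]

/-- hypotheses on `A` -/
structure Good (A : Finset (ι → Bool)) (k : ℕ) : Prop where
  card : A.card = 2 ^ k
  edges : 2 * (k * 2 ^ k) < 2 * D A + 2 ^ k

/-- size of the smaller half -/
def mi (A : Finset (ι → Bool)) (i : ι) : ℕ := min (half A i false).card (half A i true).card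

variable {A : Finset (ι → Bool)} {k : ℕ}

theorem Good.forb (h : Good A k) {m : ℕ} (hm : D A ≤ N k m) : ¬ (2 ^ k ≤ 8 * m ∧ 8 * m ≤ 3 * 2 ^ k) := by
  rintro ⟨h1, h2⟩
  have := key' k m h1 h2
  have := h.edges
  omega

theorem halves (h : Good A k) (i : ι) :
    s (half A i false).card + s (half A i true).card = s (2 ^ k - mi A i) + s (mi A i) ∧
    2 * mi A i ≤ 2 ^ k := by
  have h1 := card_half A i
  rw [h.card] at h1
  unfold mi
  rcases le_total (half A i false).card (half A i true).card with h2 | h2
  · rw [min_eq_left h2]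
    refine ⟨?_, by omega⟩
    rw [show 2 ^ k - (half A i false).card = (half A i true).card by omega, add_comm]
  · rw [min_eq_right h2]
    refine ⟨?_, by omega⟩
    rw [show 2 ^ k - (half A i true).card = (half A i false).card by omega]

theorem D_le_mi (h : Good A k) (i : ι) : D A + 2 * mi A i ≤ N k (mi A i) + 2 * dir A i := by
  have h1 := D_half A i
  have h2 := D_le (half A i false)
  have h3 := D_le (half A i true)
  have h4 := (halves h i).1
  unfold N
  omega

theorem dir_le_mi (A : Finset (ι → Bool)) (i : ι) : dir A i ≤ mi A i :=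
  le_min (dir_le A i false) (dir_le A i true)

/-- dichotomy -/
theorem dich (h : Good A k) (i : ι) : 8 * mi A i < 2 ^ k ∨ 3 * 2 ^ k < 8 * mi A i := by
  have h1 := D_le_mi h i
  have h2 := dir_le_mi A i
  have h3 := h.forb (m := mi A i) (by omega)
  omega

theorem large_dir (h : Good A k) {i : ι} (hi : 3 * 2 ^ k < 8 * mi A i) :
    3 * 2 ^ k < 8 * dir A i := by
  have h1 := D_le_mi h i
  have h2 := (halves h i).2
  have h3 := h.edges
  have h4 : 2 ^ k < 4 * dir A i := by
    rcases Nat.eq_zero_or_pos k with rfl | hk
    · omega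
    obtain ⟨l, rfl⟩ : ∃ l, k = l + 1 := ⟨k - 1, by omega⟩
    have h0 : 2 ^ (l + 1) = 2 * 2 ^ l := by ring
    rw [N_half l _ (by omega)] at h1
    have h5 := N_eq (l + 1) (2 ^ l - mi A i) (by omega)
    obtain ⟨r, hr⟩ : ∃ r, 2 ^ l = mi A i + r := ⟨2 ^ l - mi A i, by omega⟩
    rw [show 2 ^ l - mi A i = r by omega] at h1 h5
    -- `8 r < 2 ^ k`
    have h6 : 8 * r < 2 ^ (l + 1) := by omega
    have h7 : 2 * s r + 2 * r ≤ l * r ∨ r = 0 := by
      rcases Nat.eq_zero_or_pos r with h | h
      · exact Or.inr h
      left
      have h8 : 2 ≤ l := by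
        by_contra hlt
        have : l = 0 ∨ l = 1 := by omega
        rcases this with rfl | rfl <;> omega
      obtain ⟨m, rfl⟩ : ∃ m, l = m + 2 := ⟨l - 2, by omega⟩
      have h9 : 2 ^ (m + 2 + 1) = 8 * 2 ^ m := by ring
      have h10 := s_le m r (by omega)
      nlinarith
    rcases h7 with h7 | h7
    · nlinarith
    · subst h7
      simp at h5
      omega
  have h5 := h.forb (D_le_dir A i k h.card)
  omega

/-- the big coordinates -/
def big (A : Finset (ι → Bool)) (k : ℕ) : Finset ι := univ.filter (fun i => 3 * 2 ^ k < 8 * mi A i)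

theorem mem_big {i : ι} : i ∈ big A k ↔ 3 * 2 ^ k < 8 * mi A i := by simp [big]

theorem cut_small (h : Good A k) (T : Finset ι) : T ⊆ big A k → ∀ j, j + T.card = k →
    8 * ∑ y ∈ QT T, (cnt A T y - 2 ^ j) < 2 ^ k := by
  induction T using Finset.induction_on with
  | empty =>
    intro _ j hj
    rw [card_empty, add_zero] at hj
    subst hj
    rw [QT_empty, sum_singleton]
    have : cnt A ∅ (fun _ => false) = 2 ^ j := by
      unfold cnt
      simp [h.card]
    rw [this]
    simp
  | insert i T hi ih =>
    intro hT j hj
    rw [card_insert_of_notMem hi] at hj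
    have hiS : i ∈ big A k := hT (mem_insert_self _ _)
    have h1 := ih (fun x hx => hT (mem_insert_of_mem hx)) (j + 1) (by omega)
    have h2 := large_dir h (mem_big.1 hiS)
    have h3 := dir_le_sum A T hi
    have h4 := D_le_cut A (insert i T) k j (by rw [card_insert_of_notMem hi]; omega) h.card
    have h5 := h.forb h4
    have h6 : 2 * ∑ y ∈ QT (insert i T), (cnt A (insert i T) y - 2 ^ j) +
        2 * ∑ y ∈ QT T, min (cnt A (insert i T) y) (cnt A (insert i T) (fl i y)) ≤
        2 * ∑ y ∈ QT T, (cnt A T y - 2 ^ (j + 1)) + ∑ y ∈ QT T, cnt A T y := by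
      rw [sum_QT_insert hi, mul_sum, mul_sum, mul_sum, ← sum_add_distrib, ← sum_add_distrib]
      refine sum_le_sum fun y _ => ?_
      rw [cnt_insert A hi y, pow_succ]
      omega
    rw [sum_cnt, h.card] at h6
    omega

theorem card_big_le (h : Good A k) : (big A k).card ≤ k := by
  by_contra hlt
  obtain ⟨T, hT, hTk⟩ := exists_subset_card_eq (s := big A k) (n := k) (by omega)
  obtain ⟨i, hiS, hi⟩ : ∃ i ∈ big A k, i ∉ T := by
    by_contra hc
    push Not at hc
    have := card_le_card (show big A k ⊆ T from hc)
    omega
  have h1 := cut_small h T hT 0 (by omega)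
  have h2 := large_dir h (mem_big.1 hiS)
  have h3 := dir_le_sum A T hi
  have h4 : ∑ y ∈ QT T, cnt A T y +
      2 * ∑ y ∈ QT T, min (cnt A (insert i T) y) (cnt A (insert i T) (fl i y)) ≤
      ∑ y ∈ QT T, cnt A T y + 2 * ∑ y ∈ QT T, (cnt A T y - 2 ^ 0) := by
    rw [mul_sum, mul_sum, ← sum_add_distrib, ← sum_add_distrib]
    refine sum_le_sum fun y _ => ?_
    rw [cnt_insert A hi y, pow_zero]
    omega
  omega

/-- the value taken by at least half of the elements of `A` -/
def maj (A : Finset (ι → Bool)) (i : ι) : Bool :=
  decide ((half A i false).card < (half A i true).card)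

theorem card_ne_maj (A : Finset (ι → Bool)) (i : ι) :
    (A.filter (fun x => x i ≠ maj A i)).card = mi A i := by
  unfold mi
  have h : A.filter (fun x => x i ≠ maj A i) = half A i (!maj A i) := by
    unfold half
    refine filter_congr fun x _ => ?_
    cases x i <;> cases maj A i <;> simp
  rw [h]
  unfold maj
  rcases Nat.lt_or_ge (half A i false).card (half A i true).card with h1 | h1
  · rw [decide_eq_true h1, min_eq_left h1.le]; rfl
  · rw [decide_eq_false (by omega), min_eq_right h1]; rfl

theorem out_small (h : Good A k) (R : Finset ι) : Disjoint R (big A k) →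
    8 * (out A R (maj A)).card < 2 ^ k := by
  induction R using Finset.induction_on with
  | empty =>
    intro _
    unfold out
    simp
  | insert i R hi ih =>
    intro hR
    have h1 := ih (disjoint_of_subset_left (subset_insert _ _) hR)
    have h2 : i ∉ big A k := disjoint_left.1 hR (mem_insert_self _ _)
    rw [mem_big] at h2
    have h3 := dich h i
    have h4 := h.forb (D_le_out A (insert i R) (maj A) k h.card)
    have h5 : (out A (insert i R) (maj A)).card ≤ (out A R (maj A)).card + mi A i := by
      rw [← card_ne_maj A i]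
      refine le_trans (card_le_card ?_) (card_union_le _ _)
      intro x hx
      unfold out at hx ⊢
      simp only [mem_union, mem_filter, exists_mem_insert] at hx ⊢
      obtain ⟨hxA, h' | h'⟩ := hx
      · exact Or.inr ⟨hxA, h'⟩
      · exact Or.inl ⟨hxA, h'⟩
    omega

/-- the size of a subcube -/
theorem card_subcube (R : Finset ι) (z : ι → Bool) :
    ((univ : Finset (ι → Bool)).filter (fun x => ∀ i ∈ R, x i = z i)).card =
      2 ^ (Fintype.card ι - R.card) := by
  have h1 : ∀ R : Finset ι,
      ((univ : Finset (ι → Bool)).filter (fun x => ∀ i ∈ R, x i = z i)).card * 2 ^ R.card =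
      2 ^ Fintype.card ι := by
    intro R
    induction R using Finset.induction_on with
    | empty => simp
    | insert i R hi ih =>
      have h2 := cnt_insert (univ : Finset (ι → Bool)) hi z
      have h3 : cnt (univ : Finset (ι → Bool)) (insert i R) (fl i z) =
          cnt (univ : Finset (ι → Bool)) (insert i R) z := by
        unfold cnt
        apply card_bij' (fun x _ => fl i x) (fun x _ => fl i x)
        · intro x hx
          simp only [mem_filter, mem_univ, true_and, forall_mem_insert, fl_same] at hx ⊢
          refine ⟨by rw [hx.1]; simp, fun j hj => ?_⟩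
          have hji : j ≠ i := fun h => hi (by rw [← h]; exact hj)
          have := hx.2 j hj
          rw [fl_ne hji] at this ⊢
          exact this
        · intro x hx
          simp only [mem_filter, mem_univ, true_and, forall_mem_insert, fl_same] at hx ⊢
          refine ⟨by rw [hx.1], fun j hj => ?_⟩
          have hji : j ≠ i := fun h => hi (by rw [← h]; exact hj)
          rw [fl_ne hji, fl_ne hji]
          exact hx.2 j hj
        · intro x _; exact fl_fl i x
        · intro x _; exact fl_fl i x
      unfold cnt at h2 h3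
      rw [h3] at h2
      rw [card_insert_of_notMem hi, ← ih, h2, pow_succ]
      ring
  have h2 := h1 R
  have h3 : R.card ≤ Fintype.card ι := card_le_univ R
  have h4 : 2 ^ Fintype.card ι = 2 ^ (Fintype.card ι - R.card) * 2 ^ R.card := by
    rw [← pow_add]
    congr 1
    omega
  rw [h4] at h2
  exact Nat.eq_of_mul_eq_mul_right (by positivity) h2

/-- **Structure.** -/
theorem structure_thm (h : Good A k) : ∃ (R : Finset ι) (z : ι → Bool),
    ((univ : Finset (ι → Bool)).filter (fun x => ∀ i ∈ R, x i = z i)).card = 2 ^ k ∧
    8 * (out A R z).card < 2 ^ k := by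
  refine ⟨(big A k)ᶜ, maj A, ?_, out_small h _ disjoint_compl_left⟩
  have h1 := out_small h (big A k)ᶜ disjoint_compl_left
  have h2 := card_big_le h
  have h3 := card_subcube (big A k)ᶜ (maj A)
  rw [card_compl] at h3
  have h4 : (big A k).card ≤ Fintype.card ι := card_le_univ _
  rw [show Fintype.card ι - (Fintype.card ι - (big A k).card) = (big A k).card by omega] at h3
  have h5 : A.card ≤ (out A (big A k)ᶜ (maj A)).card +
      ((univ : Finset (ι → Bool)).filter (fun x => ∀ i ∈ (big A k)ᶜ, x i = maj A i)).card := by
    refine le_trans (card_le_card ?_) (card_union_le _ _)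
    intro x hx
    unfold out
    simp only [mem_union, mem_filter, mem_univ, true_and]
    by_cases h : ∀ i ∈ (big A k)ᶜ, x i = maj A i
    · exact Or.inr h
    · left
      push Not at h
      exact ⟨hx, h⟩
  rw [h3, h.card] at h5
  rw [h3]
  congr 1
  by_contra hne
  have h6 : (big A k).card + 1 ≤ k := by omega
  have h7 : 2 ^ ((big A k).card + 1) ≤ 2 ^ k := Nat.pow_le_pow_right (by norm_num) h6
  rw [pow_succ] at h7
  omega

end Q116.IS
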