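import Mathlib

/-!
# The number of edges of the initial segments of the cube

`s n` is the sum of the binary digit sums of `0, ..., n - 1`, the number of edges spanned by the
first `n` vertices of the cube in the binary order.
-/

set_option autoImplicit false

namespace Q116.IS

open Finset

/-- binary digit sum -/
def pc (i : ℕ) : ℕ := (Nat.digits 2 i).sum

/-- sum of the binary digit sums of the numbers below `n` -/
def s (n : ℕ) : ℕ := ∑ i ∈ range n, pc i

theorem pc_two_mul (i : ℕ) : pc (2 * i) = pc i := by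
  rcases Nat.eq_zero_or_pos i with rfl | hi
  · simp
  · unfold pc
    rw [Nat.digits_def' (by norm_num) (by omega : 0 < 2 * i)]
    simp

theorem pc_two_mul_add_one (i : ℕ) : pc (2 * i + 1) = pc i + 1 := by
  unfold pc
  rw [Nat.digits_def' (by norm_num) (by omega : 0 < 2 * i + 1)]
  have h1 : (2 * i + 1) % 2 = 1 := by omega
  have h2 : (2 * i + 1) / 2 = i := by omega
  rw [h1, h2, List.sum_cons, add_comm]

theorem pc_le (i : ℕ) : pc i ≤ i := Nat.digit_sum_le 2 i

@[simp] theorem s_zero : s 0 = 0 := by simp [s]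

@[simp] theorem s_one : s 1 = 0 := by simp [s, pc]

theorem s_succ (n : ℕ) : s (n + 1) = s n + pc n := by
  unfold s
  rw [sum_range_succ]

theorem s_even (a : ℕ) : s (2 * a) = 2 * s a + a := by
  induction a with
  | zero => simp
  | succ a ih =>
    rw [show 2 * (a + 1) = 2 * a + 1 + 1 by ring, s_succ, s_succ, ih, s_succ, pc_two_mul,
      pc_two_mul_add_one]
    ring

theorem s_odd (a : ℕ) : s (2 * a + 1) = s a + s (a + 1) + a := by
  rw [s_succ, s_even, s_succ, pc_two_mul]
  ring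

theorem s_add_aux : ∀ N a b : ℕ, a + b ≤ N → a ≤ b → s a + s b + a ≤ s (a + b) := by
  intro N
  induction N using Nat.strong_induction_on with
  | _ N ih =>
    intro a b hN hab
    rcases Nat.eq_zero_or_pos a with rfl | ha
    · simp
    obtain ⟨a', rfl | rfl⟩ := a.even_or_odd' <;> obtain ⟨b', rfl | rfl⟩ := b.even_or_odd'
    · have h1 := ih (a' + b') (by omega) a' b' le_rfl (by omega)
      rw [show 2 * a' + 2 * b' = 2 * (a' + b') by ring, s_even, s_even, s_even]
      omega
    · have h1 := ih (a' + b') (by omega) a' b' le_rfl (by omega)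
      have h2 := ih (a' + (b' + 1)) (by omega) a' (b' + 1) le_rfl (by omega)
      rw [show 2 * a' + (2 * b' + 1) = 2 * (a' + b') + 1 by ring, s_even, s_odd, s_odd]
      rw [show a' + (b' + 1) = a' + b' + 1 by ring] at h2
      omega
    · have h1 := ih (a' + b') (by omega) a' b' le_rfl (by omega)
      have h2 := ih (a' + 1 + b') (by omega) (a' + 1) b' le_rfl (by omega)
      rw [show 2 * a' + 1 + 2 * b' = 2 * (a' + b') + 1 by ring, s_even, s_odd, s_odd]
      rw [show a' + 1 + b' = a' + b' + 1 by ring] at h2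
      omega
    · have h1 := ih (a' + (b' + 1)) (by omega) a' (b' + 1) le_rfl (by omega)
      have h2 : s (a' + 1) + s b' + a' ≤ s (a' + b' + 1) := by
        rcases Nat.lt_or_ge a' b' with h | h
        · have := ih (a' + 1 + b') (by omega) (a' + 1) b' le_rfl (by omega)
          rw [show a' + 1 + b' = a' + b' + 1 by ring] at this
          omega
        · have := ih (b' + (a' + 1)) (by omega) b' (a' + 1) le_rfl (by omega)
          rw [show b' + (a' + 1) = a' + b' + 1 by ring] at this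
          omega
      rw [show 2 * a' + 1 + (2 * b' + 1) = 2 * (a' + b' + 1) by ring, s_even, s_odd, s_odd]
      rw [show a' + (b' + 1) = a' + b' + 1 by ring] at h1
      omega

theorem s_add (a b : ℕ) : s a + s b + min a b ≤ s (a + b) := by
  rcases le_total a b with h | h
  · rw [min_eq_left h]
    exact s_add_aux _ a b le_rfl h
  · rw [min_eq_right h]
    have := s_add_aux _ b a le_rfl h
    rw [add_comm b a] at this
    omega

theorem s_pow (j : ℕ) : 2 * s (2 ^ j) = j * 2 ^ j := by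
  induction j with
  | zero => simp
  | succ j ih =>
    rw [pow_succ, mul_comm (2 ^ j) 2, s_even]
    linarith

theorem s_pow_add : ∀ (j v : ℕ), v ≤ 2 ^ j → s (2 ^ j + v) = s (2 ^ j) + v + s v := by
  intro j
  induction j with
  | zero =>
    intro v hv
    have : v = 0 ∨ v = 1 := by simp at hv; omega
    rcases this with rfl | rfl
    · simp
    · simp [s, pc, sum_range_succ]
  | succ j ih =>
    intro v hv
    rw [pow_succ] at hv ⊢
    obtain ⟨w, rfl | rfl⟩ := v.even_or_odd'
    · rw [show 2 ^ j * 2 + 2 * w = 2 * (2 ^ j + w) by ring, mul_comm (2 ^ j) 2, s_even, s_even,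
        s_even, ih w (by omega)]
      ring
    · rw [show 2 ^ j * 2 + (2 * w + 1) = 2 * (2 ^ j + w) + 1 by ring, mul_comm (2 ^ j) 2, s_even,
        s_odd, s_odd, ih w (by omega), add_assoc (2 ^ j) w 1, ih (w + 1) (by omega)]
      ring

theorem s_sym : ∀ (j a r : ℕ), a + r = 2 ^ j → 2 * s a + j * r = 2 * s r + j * a := by
  intro j
  induction j with
  | zero =>
    intro a r h
    have : (a = 0 ∧ r = 1) ∨ (a = 1 ∧ r = 0) := by simp at h; omega
    rcases this with ⟨rfl, rfl⟩ | ⟨rfl, rfl⟩ <;> simp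
  | succ j ih =>
    intro a r h
    rw [pow_succ] at h
    obtain ⟨a', rfl | rfl⟩ := a.even_or_odd' <;> obtain ⟨r', rfl | rfl⟩ := r.even_or_odd'
    · have h1 := ih a' r' (by omega)
      rw [s_even, s_even]
      nlinarith
    · omega
    · omega
    · have h1 := ih a' (r' + 1) (by omega)
      have h2 := ih (a' + 1) r' (by omega)
      rw [s_odd, s_odd]
      nlinarith

theorem s_le : ∀ (j v : ℕ), v ≤ 2 ^ j → 2 * s v ≤ j * v := by
  intro j
  induction j with
  | zero =>
    intro v hv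
    have : v = 0 ∨ v = 1 := by simp at hv; omega
    rcases this with rfl | rfl <;> simp
  | succ j ih =>
    intro v hv
    rw [pow_succ] at hv
    obtain ⟨w, rfl | rfl⟩ := v.even_or_odd'
    · have := ih w (by omega)
      rw [s_even]
      nlinarith
    · have h1 := ih w (by omega)
      have h2 := ih (w + 1) (by omega)
      rw [s_odd]
      nlinarith

theorem s_pow_add_le : ∀ (j w : ℕ), s (2 ^ j + w) ≤ s (2 ^ j) + s w + w := by
  intro j
  induction j with
  | zero =>
    intro w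
    rw [pow_zero, add_comm 1 w, s_succ, s_one]
    have := pc_le w
    omega
  | succ j ih =>
    intro w
    rw [pow_succ, mul_comm (2 ^ j) 2]
    obtain ⟨v, rfl | rfl⟩ := w.even_or_odd'
    · have h1 := ih v
      rw [show 2 * 2 ^ j + 2 * v = 2 * (2 ^ j + v) by ring, s_even, s_even, s_even]
      omega
    · have h1 := ih v
      have h2 := ih (v + 1)
      rw [show 2 * 2 ^ j + (2 * v + 1) = 2 * (2 ^ j + v) + 1 by ring, s_even, s_odd, s_odd]
      rw [show 2 ^ j + (v + 1) = 2 ^ j + v + 1 by ring] at h2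
      omega

/-- twice the bound for the number of edges of a set of `2 ^ k` vertices with `r` vertices outside of
a subcube -/
def N (k r : ℕ) : ℕ := 2 * s (2 ^ k - r) + 2 * s r + 2 * r

theorem N_eq (k r : ℕ) (h : r ≤ 2 ^ k) : N k r + 2 * (k * r) = k * 2 ^ k + 4 * s r + 2 * r := by
  have h1 := s_sym k (2 ^ k - r) r (by omega)
  unfold N
  have h2 : k * (2 ^ k - r) + k * r = k * 2 ^ k := by
    rw [← mul_add]
    congr 1
    omega
  nlinarith

/-- the forbidden interval -/
theorem key (k r : ℕ) (h1 : 2 ^ k ≤ 8 * r) (h2 : 4 * r ≤ 2 ^ k) :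
    2 * N k r + 2 ^ k ≤ 2 * (k * 2 ^ k) := by
  have h3 := N_eq k r (by omega)
  have hN : 8 * s r + 4 * r + 2 ^ k ≤ 4 * (k * r) := by
    rcases Nat.lt_or_ge k 3 with hk | hk
    · interval_cases k
      · omega
      · omega
      · have : r = 1 := by omega
        subst this
        simp
    · obtain ⟨m, rfl⟩ : ∃ m, k = m + 3 := ⟨k - 3, by omega⟩
      have hp : 2 ^ (m + 3) = 8 * 2 ^ m := by ring
      rw [hp] at h1 h2 ⊢
      obtain ⟨v, rfl⟩ : ∃ v, r = 2 ^ m + v := ⟨r - 2 ^ m, by omega⟩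
      have hv : v ≤ 2 ^ m := by omega
      have h4 := s_pow_add m v hv
      have h5 := s_pow m
      have h6 := s_le m v hv
      rw [h4]
      nlinarith
  nlinarith

/-- the identity for the splitting by a coordinate -/
theorem N_half (k m : ℕ) (h : 2 * m ≤ 2 ^ (k + 1)) : N (k + 1) m = N (k + 1) (2 ^ k - m) := by
  have h0 : 2 ^ (k + 1) = 2 ^ k + 2 ^ k := by ring
  have hm : m ≤ 2 ^ k := by omega
  unfold N
  have h1 : s (2 ^ (k + 1) - m) = s (2 ^ k) + (2 ^ k - m) + s (2 ^ k - m) := by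
    rw [h0, show 2 ^ k + 2 ^ k - m = 2 ^ k + (2 ^ k - m) by omega]
    exact s_pow_add k _ (by omega)
  have h2 : s (2 ^ (k + 1) - (2 ^ k - m)) = s (2 ^ k) + m + s m := by
    rw [h0, show 2 ^ k + 2 ^ k - (2 ^ k - m) = 2 ^ k + m by omega]
    exact s_pow_add k _ hm
  rw [h1, h2]
  omega

/-- the second form of the forbidden interval -/
theorem key' (k m : ℕ) (h1 : 2 ^ k ≤ 8 * m) (h2 : 8 * m ≤ 3 * 2 ^ k) :
    2 * N k m + 2 ^ k ≤ 2 * (k * 2 ^ k) := by
  rcases Nat.lt_or_ge (2 ^ k) (4 * m) with h | h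
  · rcases Nat.eq_zero_or_pos k with rfl | hk
    · omega
    · obtain ⟨l, rfl⟩ : ∃ l, k = l + 1 := ⟨k - 1, by omega⟩
      have h0 : 2 ^ (l + 1) = 2 * 2 ^ l := by ring
      rw [N_half l m (by omega)]
      exact key _ _ (by omega) (by omega)
  · exact key k m h1 h

/-- the last estimate -/
theorem last (k j q : ℕ) (h1 : 8 * q < 2 ^ k) (h2 : 2 ^ k ≤ 2 ^ j * (2 * q)) :
    (j * 2 ^ k : ℝ) / 2 ^ j ≤ (k * 2 ^ k : ℝ) - N k q := by
  have hq : 0 < q := by
    rcases Nat.eq_zero_or_pos q with rfl | h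
    · simp at h2
    · exact h
  obtain ⟨i, hi1, hi2⟩ : ∃ i, 2 ^ i ≤ q ∧ q < 2 ^ (i + 1) :=
    ⟨Nat.log 2 q, Nat.pow_log_le_self 2 (by omega), Nat.lt_pow_succ_log_self (by norm_num) q⟩
  obtain ⟨v, rfl⟩ : ∃ v, q = 2 ^ i + v := ⟨q - 2 ^ i, by omega⟩
  have hp : 2 ^ (i + 1) = 2 * 2 ^ i := by ring
  rw [hp] at hi2
  have hv : v ≤ 2 ^ i := by omega
  have hik : i + 3 < k := by
    have : 2 ^ (i + 3) < 2 ^ k := by
      have : 2 ^ (i + 3) = 8 * 2 ^ i := by ring
      omega
    exact (Nat.pow_lt_pow_iff_right (by norm_num)).1 this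
  obtain ⟨m, rfl⟩ : ∃ m, k = i + 1 + m := ⟨k - (i + 1), by omega⟩
  have hm3 : 3 ≤ m := by omega
  have hmj : m ≤ j := by
    have h3 : 2 ^ (i + 1 + m) < 2 ^ (j + (i + 2)) := by
      calc 2 ^ (i + 1 + m) ≤ 2 ^ j * (2 * (2 ^ i + v)) := h2
        _ < 2 ^ j * (2 * (2 * 2 ^ i)) := by
            apply Nat.mul_lt_mul_of_pos_left _ (by positivity)
            omega
        _ = 2 ^ (j + (i + 2)) := by ring
    have := (Nat.pow_lt_pow_iff_right (by norm_num : 1 < 2)).1 h3
    omega
  -- lower bound for the excess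
  have hN := N_eq (i + 1 + m) (2 ^ i + v) (by omega)
  have h4 := s_pow_add i v hv
  have h5 := s_pow i
  have h6 := s_le i v hv
  have h7 : N (i + 1 + m) (2 ^ i + v) + m * 2 ^ (i + 1) ≤ (i + 1 + m) * 2 ^ (i + 1 + m) := by
    rw [h4] at hN
    rw [hp]
    nlinarith [Nat.zero_le (m * v), Nat.mul_le_mul_right v hm3]
  have h8 : (N (i + 1 + m) (2 ^ i + v) : ℝ) + m * 2 ^ (i + 1) ≤
      ((i + 1 + m : ℕ) : ℝ) * 2 ^ (i + 1 + m) := by exact_mod_cast h7
  have h9 : (j * 2 ^ (i + 1 + m) : ℝ) / 2 ^ j ≤ m * 2 ^ (i + 1) := by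
    have h10 : ∀ d : ℕ, (m + d) * 2 ^ m ≤ m * 2 ^ (m + d) := by
      intro d
      induction d with
      | zero => simp
      | succ d ih =>
        have e1 : 2 ^ (m + (d + 1)) = 2 * 2 ^ (m + d) := by ring
        have e2 : 2 ^ m ≤ 2 ^ (m + d) := Nat.pow_le_pow_right (by norm_num) (by omega)
        have e3 : 2 ^ (m + d) ≤ m * 2 ^ (m + d) := Nat.le_mul_of_pos_left _ (by omega)
        have e4 : (m + (d + 1)) * 2 ^ m = (m + d) * 2 ^ m + 2 ^ m := by ring
        have e5 : m * (2 * 2 ^ (m + d)) = m * 2 ^ (m + d) + m * 2 ^ (m + d) := by ring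
        rw [e1, e4, e5]
        omega
    obtain ⟨d, rfl⟩ : ∃ d, j = m + d := ⟨j - m, by omega⟩
    rw [div_le_iff₀ (by positivity)]
    have h11 := h10 d
    have h12 : ((m + d : ℕ) : ℝ) * 2 ^ m ≤ m * 2 ^ (m + d) := by exact_mod_cast h11
    calc ((m + d : ℕ) : ℝ) * 2 ^ (i + 1 + m) = 2 ^ (i + 1) * (((m + d : ℕ) : ℝ) * 2 ^ m) := by
          rw [pow_add]; ring
      _ ≤ 2 ^ (i + 1) * (m * 2 ^ (m + d)) := by
          apply mul_le_mul_of_nonneg_left h12 (by positivity)
      _ = m * 2 ^ (i + 1) * 2 ^ (m + d) := by ring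
  linarith

end Q116.IS
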