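import Pool.Agent.Q116.IS.Cube

/-!
# Splitting a set of vertices of the cube
-/

set_option autoImplicit false

namespace Q116.IS

open Finset

variable {ι : Type} [Fintype ι] [DecidableEq ι]

/-- number of edges between `B` and `C` -/
def E (B C : Finset (ι → Bool)) : ℕ := ∑ i, (B.filter (fun x => fl i x ∈ C)).card

theorem card_flip (i : ι) (B C : Finset (ι → Bool)) :
    (B.filter (fun x => fl i x ∈ C)).card = (C.filter (fun x => fl i x ∈ B)).card := by
  apply card_bij' (fun x _ => fl i x) (fun x _ => fl i x)
  · intro x hx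
    rw [mem_filter] at hx ⊢
    rw [fl_fl]
    exact ⟨hx.2, hx.1⟩
  · intro x hx
    rw [mem_filter] at hx ⊢
    rw [fl_fl]
    exact ⟨hx.2, hx.1⟩
  · intro x _; exact fl_fl i x
  · intro x _; exact fl_fl i x

theorem D_split (A : Finset (ι → Bool)) (p : (ι → Bool) → Prop) [DecidablePred p] :
    D A = D (A.filter p) + D (A.filter (fun x => ¬ p x)) +
      2 * E (A.filter p) (A.filter (fun x => ¬ p x)) := by
  unfold D E
  rw [mul_sum, ← sum_add_distrib, ← sum_add_distrib]
  refine sum_congr rfl fun i _ => ?_
  have h1 : (A.filter (fun x => fl i x ∈ A)).card =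
      ((A.filter p).filter (fun x => fl i x ∈ A.filter p)).card +
      ((A.filter p).filter (fun x => fl i x ∈ A.filter (fun x => ¬ p x))).card +
      (((A.filter (fun x => ¬ p x)).filter (fun x => fl i x ∈ A.filter p)).card +
      ((A.filter (fun x => ¬ p x)).filter (fun x => fl i x ∈ A.filter (fun x => ¬ p x))).card) := by
    have e : ∀ B : Finset (ι → Bool), (B.filter (fun x => fl i x ∈ A.filter p)).card +
        (B.filter (fun x => fl i x ∈ A.filter (fun x => ¬ p x))).card =
        (B.filter (fun x => fl i x ∈ A)).card := by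
      intro B
      rw [← card_union_of_disjoint]
      · congr 1
        ext x
        simp only [mem_union, mem_filter]
        tauto
      · rw [disjoint_left]
        intro x hx hx'
        simp only [mem_filter] at hx hx'
        exact hx'.2.2 hx.2.2
    rw [e, e, ← card_union_of_disjoint]
    · congr 1
      ext x
      simp only [mem_union, mem_filter]
      tauto
    · rw [disjoint_left]
      intro x hx hx'
      simp only [mem_filter] at hx hx'
      exact hx'.1.2 hx.1.2
  rw [h1, card_flip i (A.filter (fun x => ¬ p x)) (A.filter p)]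
  ring

/-- the part outside of the subcube where `x i = z i` for `i ∈ R` -/
def out (A : Finset (ι → Bool)) (R : Finset ι) (z : ι → Bool) : Finset (ι → Bool) :=
  A.filter (fun x => ∃ i ∈ R, x i ≠ z i)

theorem D_le_out (A : Finset (ι → Bool)) (R : Finset ι) (z : ι → Bool) (k : ℕ)
    (hA : A.card = 2 ^ k) : D A ≤ N k (out A R z).card := by
  have h1 := D_split A (fun x => ∃ i ∈ R, x i ≠ z i)
  have h2 := card_filter_add_card_filter_not (s := A) (fun x => ∃ i ∈ R, x i ≠ z i)
  have h3 : E (A.filter (fun x => ∃ i ∈ R, x i ≠ z i)) (A.filter (fun x => ¬ ∃ i ∈ R, x i ≠ z i)) ≤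
      (A.filter (fun x => ∃ i ∈ R, x i ≠ z i)).card := by
    unfold E
    simp_rw [card_filter (fun x => fl _ x ∈ _)]
    rw [sum_comm, card_eq_sum_ones]
    refine sum_le_sum fun x hx => ?_
    rw [← card_filter, card_le_one]
    obtain ⟨l, hl, hxl⟩ := (mem_filter.1 hx).2
    have key : ∀ i, fl i x ∈ A.filter (fun x => ¬ ∃ i ∈ R, x i ≠ z i) → i = l := by
      intro i hi
      by_contra hne
      apply (mem_filter.1 hi).2
      exact ⟨l, hl, by rw [fl_ne (Ne.symm hne)]; exact hxl⟩
    intro i hi j hj
    rw [key i (mem_filter.1 hi).2, key j (mem_filter.1 hj).2]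
  have h4 := D_le (A.filter (fun x => ∃ i ∈ R, x i ≠ z i))
  have h5 := D_le (A.filter (fun x => ¬ ∃ i ∈ R, x i ≠ z i))
  have h6 : (A.filter (fun x => ¬ ∃ i ∈ R, x i ≠ z i)).card = 2 ^ k - (out A R z).card := by
    unfold out
    omega
  rw [h6] at h5
  unfold N
  unfold out at h5 ⊢
  omega

/-- the two halves in direction `i` and the number of pairs -/
def half (A : Finset (ι → Bool)) (i : ι) (b : Bool) : Finset (ι → Bool) :=
  A.filter (fun x => x i = b)

/-- number of edges in direction `i` -/
def dir (A : Finset (ι → Bool)) (i : ι) : ℕ := (A.filter (fun x => x i = false ∧ fl i x ∈ A)).card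

theorem half_compl (A : Finset (ι → Bool)) (i : ι) :
    A.filter (fun x => ¬ x i = false) = half A i true := by
  unfold half
  exact filter_congr fun x _ => by cases x i <;> simp

theorem card_half (A : Finset (ι → Bool)) (i : ι) :
    (half A i false).card + (half A i true).card = A.card := by
  rw [← half_compl]
  exact card_filter_add_card_filter_not (s := A) (fun x => x i = false)

theorem D_half (A : Finset (ι → Bool)) (i : ι) :
    D A = D (half A i false) + D (half A i true) + 2 * dir A i := by
  have h1 := D_split A (fun x => x i = false)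
  rw [half_compl] at h1
  rw [h1]
  unfold half
  congr 2
  unfold E
  rw [sum_eq_single i]
  · unfold dir
    congr 1
    ext x
    simp only [mem_filter, fl_same]
    constructor
    · rintro ⟨⟨a, b⟩, c, _⟩
      exact ⟨a, b, c⟩
    · rintro ⟨a, b, c⟩
      exact ⟨⟨a, b⟩, c, by rw [b]; rfl⟩
  · intro j _ hj
    rw [card_eq_zero, filter_eq_empty_iff]
    intro x hx hx'
    have h2 := (mem_filter.1 hx).2
    have h3 := (mem_filter.1 hx').2
    rw [fl_ne (Ne.symm hj), h2] at h3
    exact absurd h3 (by decide)
  · intro h; exact absurd (mem_univ i) h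

theorem dir_le (A : Finset (ι → Bool)) (i : ι) (b : Bool) : dir A i ≤ (half A i b).card := by
  cases b
  · unfold dir half
    apply card_le_card
    intro x hx
    rw [mem_filter] at hx ⊢
    exact ⟨hx.1, hx.2.1⟩
  · unfold dir half
    apply card_le_card_of_injOn (fl i)
    · intro x hx
      have hx := mem_filter.1 (mem_coe.1 hx)
      rw [mem_coe, mem_filter, fl_same, hx.2.1]
      exact ⟨hx.2.2, rfl⟩
    · intro x _ y _ h; exact fl_inj i h

theorem D_submod (P Q : Finset (ι → Bool)) : D P + D Q ≤ D (P ∪ Q) + D (P ∩ Q) := by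
  unfold D
  rw [← sum_add_distrib, ← sum_add_distrib]
  refine sum_le_sum fun i _ => ?_
  rw [← card_union_add_card_inter]
  apply Nat.add_le_add
  · apply card_le_card
    intro x hx
    simp only [mem_union, mem_filter] at hx ⊢
    tauto
  · apply card_le_card
    intro x hx
    simp only [mem_inter, mem_filter] at hx ⊢
    tauto

theorem D_image (i : ι) (A : Finset (ι → Bool)) : D (A.image (fl i)) = D A := by
  unfold D
  refine sum_congr rfl fun j _ => ?_
  apply card_bij' (fun x _ => fl i x) (fun x _ => fl i x)
  · intro x hx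
    simp only [mem_filter, mem_image] at hx ⊢
    obtain ⟨⟨y, hy, rfl⟩, z, hz, hz'⟩ := hx
    rw [fl_fl]
    refine ⟨hy, ?_⟩
    rw [fl_comm j i y] at hz'
    rwa [← fl_inj i hz']
  · intro x hx
    simp only [mem_filter, mem_image] at hx ⊢
    exact ⟨⟨x, hx.1, rfl⟩, fl j x, hx.2, fl_comm i j x⟩
  · intro x _; exact fl_fl i x
  · intro x _; exact fl_fl i x

/-- down-compression -/
theorem D_le_dir (A : Finset (ι → Bool)) (i : ι) (k : ℕ) (hA : A.card = 2 ^ k) :
    D A ≤ N k (dir A i) := by
  have h1 := D_half A i
  have h2 := D_submod (half A i false) ((half A i true).image (fl i))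
  rw [D_image] at h2
  have h3 : (half A i false ∩ (half A i true).image (fl i)).card = dir A i := by
    unfold dir half
    congr 1
    ext x
    simp only [mem_inter, mem_filter, mem_image]
    constructor
    · rintro ⟨⟨a, b⟩, y, ⟨c, d⟩, rfl⟩
      exact ⟨a, b, by rwa [fl_fl]⟩
    · rintro ⟨a, b, c⟩
      exact ⟨⟨a, b⟩, fl i x, ⟨c, by rw [fl_same, b]; rfl⟩, fl_fl i x⟩
  have h4 := card_union_add_card_inter (half A i false) ((half A i true).image (fl i))
  rw [card_image_of_injective _ (fl_inj i), card_half, h3, hA] at h4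
  have h5 := D_le (half A i false ∪ (half A i true).image (fl i))
  have h6 := D_le (half A i false ∩ (half A i true).image (fl i))
  rw [h3] at h6
  have h7 : (half A i false ∪ (half A i true).image (fl i)).card = 2 ^ k - dir A i := by omega
  rw [h7] at h5
  unfold N
  omega

theorem dir_le_sum (A : Finset (ι → Bool)) (T : Finset ι) {i : ι} (hi : i ∉ T) :
    dir A i ≤ ∑ y ∈ QT T, min (cnt A (insert i T) y) (cnt A (insert i T) (fl i y)) := by
  have h1 : dir A i = ∑ y ∈ QT T,
      cnt (A.filter (fun x => x i = false ∧ fl i x ∈ A)) T y := by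
    rw [sum_cnt]; rfl
  rw [h1]
  refine sum_le_sum fun y hy => ?_
  have hyi := mem_QT.1 hy i hi
  rw [le_min_iff]
  constructor
  · unfold cnt
    apply card_le_card
    intro x hx
    simp only [mem_filter, forall_mem_insert] at hx ⊢
    exact ⟨hx.1.1, by rw [hx.1.2.1, hyi], hx.2⟩
  · unfold cnt
    apply card_le_card_of_injOn (fl i)
    · intro x hx
      rw [mem_coe] at hx ⊢
      simp only [mem_filter, forall_mem_insert, fl_same] at hx ⊢
      refine ⟨hx.1.2.2, by rw [hx.1.2.1, hyi], fun j hj => ?_⟩
      have hji : j ≠ i := fun h => hi (by rw [← h]; exact hj)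
      rw [fl_ne hji, fl_ne hji]
      exact hx.2 j hj
    · intro x _ y _ h; exact fl_inj i h

end Q116.IS
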